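import Mathlib

/-!
# Sums of `(4k-1)^m (-1/2)_k^4 / k!^4`: no constant `d_11`

For `m = 11` the two requirements at `p = 3` with `r = 1` and `r = 2` contradict each other. The
same happens for `m = 15` at `p = 5` and for `m = 19` at `p = 7`.
-/

set_option autoImplicit false

namespace Pool.Agent.Results.MP_270153_nt.Disproof

open Finset

/-- The rising factorial `(a)_k = a (a + 1) ⋯ (a + k - 1)`. -/
def poch (a : ℚ) (k : ℕ) : ℚ := ∏ i ∈ range k, (a + i)

/-- The sum `S_m(N) = ∑_{k=0}^{N} (4k-1)^m (-1/2)_k^4 / k!^4`. -/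
def S (m N : ℕ) : ℚ := ∑ k ∈ range (N + 1), (4 * (k : ℚ) - 1) ^ m * (poch (-1 / 2) k ^ 4 / (k.factorial : ℚ) ^ 4)

/-- `x ≡ y (mod p^n)`: `x - y = p^n u / v` with integers `u`, `v` and `p ∤ v`. -/
def Cong (p n : ℕ) (x y : ℚ) : Prop := ∃ u v : ℤ, ¬ (p : ℤ) ∣ v ∧ x - y = (p : ℚ) ^ n * (u / v)

/-- The first congruence of the question, for given `m`, `d`, `p` and `r`. -/
def First (m : ℕ) (d : ℤ) (p r : ℕ) : Prop := Cong p (r + 3) (S m ((p ^ r + 1) / 2)) (d * p ^ r)

/-- The second congruence of the question, for given `m`, `d`, `p` and `r`. -/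
def Second (m : ℕ) (d : ℤ) (p r : ℕ) : Prop := Cong p (r + 3) (S m (p ^ r - 1)) (d * p ^ r)

/-- the terms, computed recursively -/
def t : ℕ → ℚ
  | 0 => 1
  | k + 1 => t k * ((2 * (k : ℚ) - 1) / (2 * (k + 1))) ^ 4

lemma t_eq (k : ℕ) : poch (-1 / 2) k ^ 4 / (k.factorial : ℚ) ^ 4 = t k := by
  induction k with
  | zero => simp [poch, t]
  | succ k ih =>
    have h1 : (k.factorial : ℚ) ≠ 0 := by exact_mod_cast Nat.factorial_ne_zero k
    have h2 : ((k : ℚ) + 1) ≠ 0 := by positivity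
    unfold t
    rw [← ih]
    unfold poch
    rw [prod_range_succ, Nat.factorial_succ]
    push_cast
    field_simp
    ring

lemma S_eq (m N : ℕ) : S m N = ∑ k ∈ range (N + 1), (4 * (k : ℚ) - 1) ^ m * t k := by
  unfold S
  exact sum_congr rfl (fun k _ => by rw [t_eq])

/-- combining the congruences for `r = 1` and `r = 2` -/
lemma combine {p : ℕ} (hp : Nat.Prime p) {x y : ℚ} {d : ℤ} (h1 : Cong p (1 + 3) x (d * (p : ℚ) ^ 1))
    (h2 : Cong p (2 + 3) y (d * (p : ℚ) ^ 2)) : Cong p 5 (y - p * x) 0 := by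
  obtain ⟨u, v, hv, h⟩ := h1
  obtain ⟨u', v', hv', h'⟩ := h2
  have hv0 : (v : ℚ) ≠ 0 := by
    intro h0
    apply hv
    have : v = 0 := by exact_mod_cast h0
    rw [this]; exact dvd_zero _
  have hv0' : (v' : ℚ) ≠ 0 := by
    intro h0
    apply hv'
    have : v' = 0 := by exact_mod_cast h0
    rw [this]; exact dvd_zero _
  refine ⟨u' * v - u * v', v * v', ?_, ?_⟩
  · intro hd
    rcases (Nat.prime_iff_prime_int.1 hp).dvd_or_dvd hd with h3 | h3
    · exact hv h3
    · exact hv' h3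
  · have e1 : x = d * (p : ℚ) ^ 1 + (p : ℚ) ^ (1 + 3) * (u / v) := by rw [← h]; ring
    have e2 : y = d * (p : ℚ) ^ 2 + (p : ℚ) ^ (2 + 3) * (u' / v') := by rw [← h']; ring
    rw [e1, e2]
    push_cast
    field_simp
    ring

/-- a rational number `p^4 a / b` with `p ∤ a` is not `0` modulo `p^5` -/
lemma not_cong {p : ℕ} (hp : Nat.Prime p) {a b : ℤ} (ha : ¬ (p : ℤ) ∣ a) (hb : (b : ℚ) ≠ 0) {z : ℚ}
    (hz : z = (p : ℚ) ^ 4 * a / b) : ¬ Cong p 5 z 0 := by
  rintro ⟨u, v, hv, h⟩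
  have hp0 : (p : ℚ) ≠ 0 := by exact_mod_cast hp.ne_zero
  have hv0 : (v : ℚ) ≠ 0 := by
    intro h0
    apply hv
    have : v = 0 := by exact_mod_cast h0
    rw [this]; exact dvd_zero _
  rw [sub_zero, hz] at h
  have h1 : (a : ℚ) * v = p * (u * b) := by
    field_simp at h
    linear_combination h
  have h2 : a * v = p * (u * b) := by exact_mod_cast h1
  have h3 : (p : ℤ) ∣ a * v := ⟨u * b, h2⟩
  rcases (Nat.prime_iff_prime_int.1 hp).dvd_or_dvd h3 with h4 | h4
  · exact ha h4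
  · exact hv h4

/-- the term and the sum, computed together -/
def st (m : ℕ) : ℕ → ℚ × ℚ
  | 0 => (1, 0)
  | k + 1 => ((st m k).1 * ((2 * (k : ℚ) - 1) / (2 * (k + 1))) ^ 4, (st m k).2 + (4 * (k : ℚ) - 1) ^ m * (st m k).1)

lemma t_succ (k : ℕ) : t (k + 1) = t k * ((2 * (k : ℚ) - 1) / (2 * (k + 1))) ^ 4 := rfl

lemma st_succ (m k : ℕ) : st m (k + 1) =
    ((st m k).1 * ((2 * (k : ℚ) - 1) / (2 * (k + 1))) ^ 4, (st m k).2 + (4 * (k : ℚ) - 1) ^ m * (st m k).1) := rfl

lemma st_eq (m k : ℕ) : st m k = (t k, ∑ j ∈ range k, (4 * (j : ℚ) - 1) ^ m * t j) := by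
  induction k with
  | zero => simp [st, t]
  | succ k ih => rw [st_succ, ih, sum_range_succ, t_succ]

lemma S_st (m N : ℕ) : S m N = (st m (N + 1)).2 := by
  rw [st_eq, S_eq]

lemma v11_2_5 : S 11 5 - (3 : ℕ) * S 11 2 = ((3 : ℕ) : ℚ) ^ 4 * ((4699345736275147 : ℤ) : ℚ) /
    ((4294967296 : ℤ) : ℚ) := by
  rw [S_st, S_st]
  norm_num [st]

lemma v11_2_8 : S 11 8 - (3 : ℕ) * S 11 2 = ((3 : ℕ) : ℚ) ^ 4 * ((19619132278705703179266463 : ℤ) : ℚ) /
    ((1152921504606846976 : ℤ) : ℚ) := by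
  rw [S_st, S_st]
  norm_num [st]

lemma v15_3_13 : S 15 13 - (5 : ℕ) * S 15 3 = ((5 : ℕ) : ℚ) ^ 4 * ((881459141715072715866447984522553423470283 : ℤ) : ℚ) /
    ((4951760157141521099596496896 : ℤ) : ℚ) := by
  rw [S_st, S_st]
  norm_num [st]

lemma v15_4_24 : S 15 24 - (5 : ℕ) * S 15 4 = ((5 : ℕ) : ℚ) ^ 4 * ((1865328434243421610369655854023006075357374775510731953161733039765096943 : ℤ) : ℚ) /
    ((24519928653854221733733552434404946937899825954937634816 : ℤ) : ℚ) := by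
  rw [S_st, S_st]
  norm_num [st]

lemma v19_4_25 : S 19 25 - (7 : ℕ) * S 19 4 = ((7 : ℕ) : ℚ) ^ 4 * ((860166414868282478888816219841387738775318935038671517373400498575166450650325579 : ℤ) : ℚ) /
    ((392318858461667547739736838950479151006397215279002157056 : ℤ) : ℚ) := by
  rw [S_st, S_st]
  norm_num [st]

lemma v19_6_48 : S 19 48 - (7 : ℕ) * S 19 6 = ((7 : ℕ) : ℚ) ^ 4 * ((2945060254003627691681108226414278641694100990660430406473771719674041154680058596296754373933451516389351499168216117615196571895879710747583 : ℤ) : ℚ) /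
    ((153914086704665934422965000391185991426092731525255651046673021110334850669910978950836977558144201721900890587136 : ℤ) : ℚ) := by
  rw [S_st, S_st]
  norm_num [st]

lemma noFirst11 : ¬ ∃ d : ℤ, First 11 d 3 1 ∧ First 11 d 3 2 := by
  rintro ⟨d, h1, h2⟩
  unfold First at h1 h2
  norm_num only at h1 h2
  have h := combine (p := 3) (by norm_num) (x := S 11 2) (y := S 11 5) (d := d) (by norm_num; exact h1) (by norm_num; exact h2)
  exact not_cong (p := 3) (by norm_num) (by norm_num) (by norm_num) v11_2_5 h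

lemma noSecond11 : ¬ ∃ d : ℤ, Second 11 d 3 1 ∧ Second 11 d 3 2 := by
  rintro ⟨d, h1, h2⟩
  unfold Second at h1 h2
  norm_num only at h1 h2
  have h := combine (p := 3) (by norm_num) (x := S 11 2) (y := S 11 8) (d := d) (by norm_num; exact h1) (by norm_num; exact h2)
  exact not_cong (p := 3) (by norm_num) (by norm_num) (by norm_num) v11_2_8 h

lemma noFirst15 : ¬ ∃ d : ℤ, First 15 d 5 1 ∧ First 15 d 5 2 := by
  rintro ⟨d, h1, h2⟩
  unfold First at h1 h2
  norm_num only at h1 h2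
  have h := combine (p := 5) (by norm_num) (x := S 15 3) (y := S 15 13) (d := d) (by norm_num; exact h1) (by norm_num; exact h2)
  exact not_cong (p := 5) (by norm_num) (by norm_num) (by norm_num) v15_3_13 h

lemma noSecond15 : ¬ ∃ d : ℤ, Second 15 d 5 1 ∧ Second 15 d 5 2 := by
  rintro ⟨d, h1, h2⟩
  unfold Second at h1 h2
  norm_num only at h1 h2
  have h := combine (p := 5) (by norm_num) (x := S 15 4) (y := S 15 24) (d := d) (by norm_num; exact h1) (by norm_num; exact h2)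
  exact not_cong (p := 5) (by norm_num) (by norm_num) (by norm_num) v15_4_24 h

lemma noFirst19 : ¬ ∃ d : ℤ, First 19 d 7 1 ∧ First 19 d 7 2 := by
  rintro ⟨d, h1, h2⟩
  unfold First at h1 h2
  norm_num only at h1 h2
  have h := combine (p := 7) (by norm_num) (x := S 19 4) (y := S 19 25) (d := d) (by norm_num; exact h1) (by norm_num; exact h2)
  exact not_cong (p := 7) (by norm_num) (by norm_num) (by norm_num) v19_4_25 h

lemma noSecond19 : ¬ ∃ d : ℤ, Second 19 d 7 1 ∧ Second 19 d 7 2 := by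
  rintro ⟨d, h1, h2⟩
  unfold Second at h1 h2
  norm_num only at h1 h2
  have h := combine (p := 7) (by norm_num) (x := S 19 6) (y := S 19 48) (d := d) (by norm_num; exact h1) (by norm_num; exact h2)
  exact not_cong (p := 7) (by norm_num) (by norm_num) (by norm_num) v19_6_48 h

/-- **Negative answer to Q1.** For `m = 11` no integer `d` satisfies the congruences of the
question for all odd primes `p` and all `r ≥ 1`. In fact each of the two congruences fails by
itself: for `(m, p) = (11, 3), (15, 5), (19, 7)` no integer `d` satisfies the first congruence for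
both `r = 1` and `r = 2`, and no integer `d` satisfies the second one for both `r = 1` and
`r = 2`. -/
theorem result :
    (∃ m : ℕ, Odd m ∧ ¬ ∃ d : ℤ, ∀ p : ℕ, p.Prime → p ≠ 2 → ∀ r : ℕ, 0 < r → First m d p r ∧ Second m d p r) ∧
    (¬ ∃ d : ℤ, First 11 d 3 1 ∧ First 11 d 3 2) ∧ (¬ ∃ d : ℤ, Second 11 d 3 1 ∧ Second 11 d 3 2) ∧
    (¬ ∃ d : ℤ, First 15 d 5 1 ∧ First 15 d 5 2) ∧ (¬ ∃ d : ℤ, Second 15 d 5 1 ∧ Second 15 d 5 2) ∧
    (¬ ∃ d : ℤ, First 19 d 7 1 ∧ First 19 d 7 2) ∧ (¬ ∃ d : ℤ, Second 19 d 7 1 ∧ Second 19 d 7 2) := by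
  refine ⟨⟨11, by decide, ?_⟩, noFirst11, noSecond11, noFirst15, noSecond15, noFirst19, noSecond19⟩
  rintro ⟨d, hd⟩
  exact noFirst11 ⟨d, (hd 3 (by norm_num) (by norm_num) 1 (by norm_num)).1, (hd 3 (by norm_num) (by norm_num) 2 (by norm_num)).1⟩

end Pool.Agent.Results.MP_270153_nt.Disproof
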